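import Mathlib

open Set Filter Topology
open scoped RealInnerProductSpace

namespace Pool.Agent.Results.MP_c48ca6_an.Dim

variable {H : Type*} [NormedAddCommGroup H] [InnerProductSpace ℝ H]

/-- normal cone -/
def normalCone (A : Set H) (x : H) : Set H := {v | ∀ a ∈ A, ⟪a - x, v⟫ ≤ 0}

/-- alpha-sharp with respect to u -/
def Sharp (A : Set H) (α : ℝ) (u : H) : Prop :=
  ∀ x ∈ A, u ∉ normalCone A x → α ≤ Metric.infDist u (normalCone A x)

/-- uniformly sharp -/
def UnifSharp (A : Set H) : Prop := ∃ α : ℝ, 0 < α ∧ ∀ u : H, ‖u‖ = 1 → Sharp A α u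

/-- polyhedral -/
def Polyhedral (A : Set H) : Prop :=
  ∃ m : ℕ, 1 ≤ m ∧ ∃ (a : Fin m → H) (b : Fin m → ℝ), A = {x | ∀ j, ⟪a j, x⟫ ≤ b j}

lemma poly_of_fintype {ι : Type} [Fintype ι] (A : Set H) (a : ι → H) (b : ι → ℝ)
    (h : A = {x | ∀ j, ⟪a j, x⟫ ≤ b j}) : Polyhedral A := by
  classical
  let e := Fintype.equivFin (Option ι)
  refine ⟨Fintype.card (Option ι), by simp, fun j => (e.symm j).elim 0 a,
    fun j => (e.symm j).elim 0 b, ?_⟩
  rw [h]
  ext x
  simp only [mem_ofPred_eq]
  constructor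
  · intro hx j
    cases e.symm j with
    | none => simp
    | some i => simpa using hx i
  · intro hx i
    simpa using hx (e (some i))

lemma closed_cone (A : Set H) (x : H) : IsClosed (normalCone A x) := by
  have : normalCone A x = ⋂ a ∈ A, {v | ⟪a - x, v⟫ ≤ 0} := by
    ext v; simp [normalCone]
  rw [this]
  exact isClosed_biInter fun a _ => isClosed_le (by fun_prop) continuous_const

lemma classify [CompleteSpace H] (hr : 1 < Module.rank ℝ H) {A : Set H} (hne : A.Nonempty)
    (hc : IsClosed A) (hv : Convex ℝ A) (hs : UnifSharp A) : A = univ ∨ A.Subsingleton := by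
  by_contra hcon
  push Not at hcon
  obtain ⟨h1, h2⟩ := hcon
  obtain ⟨α, hα, hs⟩ := hs
  obtain ⟨y, hy⟩ : ∃ y, y ∉ A := by
    by_contra hh; push Not at hh; exact h1 (eq_univ_of_forall hh)
  obtain ⟨x, hx, hmin⟩ := exists_norm_eq_iInf_of_complete_convex hne hc.isComplete hv y
  have hn := (norm_eq_iInf_iff_real_inner_le_zero hv hx).1 hmin
  have hyx : y - x ≠ 0 := fun h => hy (by rwa [sub_eq_zero.1 h])
  obtain ⟨a, ha, hax⟩ := h2.exists_ne x
  have hax' : a - x ≠ 0 := sub_ne_zero.2 hax
  have hconn := (isConnected_sphere hr (0 : H) zero_le_one).isPreconnected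
  have hsub : Metric.sphere (0 : H) 1 ⊆ {u | Metric.infDist u (normalCone A x) < α} := by
    have hcl : IsClosed (normalCone A x) := closed_cone A x
    have hN : (normalCone A x).Nonempty := ⟨0, by simp [normalCone]⟩
    refine hconn.subset_left_of_subset_union (v := {u | α / 2 < Metric.infDist u (normalCone A x)})
      ?_ ?_ ?_ ?_ ?_ |>.trans (fun u (hu : u ∈ {u | Metric.infDist u (normalCone A x) < α / 2}) => by
        simp only [mem_ofPred_eq] at hu ⊢; linarith)
    · exact isOpen_lt (Metric.continuous_infDist_pt _) continuous_const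
    · exact isOpen_lt continuous_const (Metric.continuous_infDist_pt _)
    · rw [Set.disjoint_left]
      intro u h1 h2
      simp only [mem_ofPred_eq] at h1 h2
      linarith
    · intro u hu
      by_cases hm : u ∈ normalCone A x
      · left
        simp only [mem_ofPred_eq, Metric.infDist_zero_of_mem hm]; linarith
      · right
        have := hs u (by simpa using hu) x hx hm
        simp only [mem_ofPred_eq]; linarith
    · refine ⟨‖y - x‖⁻¹ • (y - x), by simp [norm_smul, hyx], ?_⟩
      have hm : ‖y - x‖⁻¹ • (y - x) ∈ normalCone A x := by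
        intro b hb
        rw [inner_smul_right, real_inner_comm]
        exact mul_nonpos_of_nonneg_of_nonpos (by positivity) (hn b hb)
      simp only [mem_ofPred_eq, Metric.infDist_zero_of_mem hm]; linarith
  have hw : ‖‖a - x‖⁻¹ • (a - x)‖ = 1 := by simp [norm_smul, hax']
  have h3 := hsub (show ‖a - x‖⁻¹ • (a - x) ∈ Metric.sphere (0 : H) 1 by simpa using hw)
  have h4 : ‖a - x‖⁻¹ • (a - x) ∉ normalCone A x := by
    intro hm
    have := hm a ha
    rw [inner_smul_right, real_inner_self_eq_norm_sq] at this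
    have hp : 0 < ‖a - x‖ := norm_pos_iff.2 hax'
    have : 0 < ‖a - x‖⁻¹ * ‖a - x‖ ^ 2 := by positivity
    linarith
  have := hs _ hw x hx h4
  simp only [mem_ofPred_eq] at h3
  linarith

lemma poly_single [FiniteDimensional ℝ H] (p : H) : Polyhedral ({p} : Set H) := by
  let b := stdOrthonormalBasis ℝ H
  refine poly_of_fintype (ι := Fin (Module.finrank ℝ H) ⊕ Fin (Module.finrank ℝ H)) _
    (Sum.elim b fun i => -b i) (Sum.elim (fun i => ⟪b i, p⟫) fun i => -⟪b i, p⟫) ?_
  ext x
  simp only [mem_singleton_iff, mem_ofPred_eq, Sum.forall, Sum.elim_inl, Sum.elim_inr,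
    inner_neg_left, neg_le_neg_iff]
  constructor
  · rintro rfl; simp
  · rintro ⟨h1, h2⟩
    apply b.repr.injective
    ext i
    rw [b.repr_apply_apply, b.repr_apply_apply]
    exact le_antisymm (h1 i) (h2 i)

lemma poly_line (e : H) (he : ‖e‖ = 1) (hsp : ∀ x : H, x = ⟪e, x⟫ • e) {A : Set H}
    (hne : A.Nonempty) (hc : IsClosed A) (hv : Convex ℝ A) : Polyhedral A := by
  classical
  set I : Set ℝ := {t | t • e ∈ A} with hI
  have hIc : IsClosed I := hc.preimage (by fun_prop : Continuous fun t : ℝ => t • e)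
  have hIv : Convex ℝ I := hv.is_linear_preimage (f := fun t : ℝ => t • e)
    ⟨fun a b => add_smul _ _ _, fun c a => mul_smul _ _ _⟩
  have hIo := hIv.ordConnected
  have hmem : ∀ x : H, x ∈ A ↔ ⟪e, x⟫ ∈ I := fun x => by
    simp only [hI, mem_ofPred_eq]; rw [← hsp x]
  have hIn : I.Nonempty := by
    obtain ⟨x, hx⟩ := hne
    exact ⟨_, (hmem x).1 hx⟩
  refine poly_of_fintype (ι := Bool) _
    (fun j => if j then (if BddAbove I then e else 0) else (if BddBelow I then -e else 0))
    (fun j => if j then (if BddAbove I then sSup I else 0) else (if BddBelow I then -sInf I else 0)) ?_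
  ext x
  simp only [mem_ofPred_eq, Bool.forall_bool, hmem]
  constructor
  · intro hx
    constructor
    · by_cases hb : BddBelow I
      · simpa [hb] using csInf_le hb hx
      · simp [hb]
    · by_cases hb : BddAbove I
      · simpa [hb] using le_csSup hb hx
      · simp [hb]
  · rintro ⟨h1, h2⟩
    obtain ⟨l, hl, hl'⟩ : ∃ l ∈ I, l ≤ ⟪e, x⟫ := by
      by_cases hb : BddBelow I
      · exact ⟨sInf I, hIc.csInf_mem hIn hb, by simpa [hb] using h1⟩
      · obtain ⟨l, hl, h⟩ := not_bddBelow_iff.1 hb ⟪e, x⟫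
        exact ⟨l, hl, h.le⟩
    obtain ⟨r, hr, hr'⟩ : ∃ r ∈ I, ⟪e, x⟫ ≤ r := by
      by_cases hb : BddAbove I
      · exact ⟨sSup I, hIc.csSup_mem hIn hb, by simpa [hb] using h2⟩
      · obtain ⟨l, hl, h⟩ := not_bddAbove_iff.1 hb ⟪e, x⟫
        exact ⟨l, hl, h.le⟩
    exact hIo.out hl hr ⟨hl', hr'⟩

theorem result (H : Type*) [NormedAddCommGroup H] [InnerProductSpace ℝ H] [CompleteSpace H] :
    (∀ A : Set H, A.Nonempty → IsClosed A → Convex ℝ A → UnifSharp A → Polyhedral A) ↔
      FiniteDimensional ℝ H := by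
  constructor
  · intro h
    obtain ⟨m, -, a, b, hab⟩ := h {0} (singleton_nonempty 0) isClosed_singleton (convex_singleton 0)
      ⟨1, one_pos, fun u _ x hx hu => absurd (fun c hc => by
        rw [mem_singleton_iff.1 hc, mem_singleton_iff.1 hx]; simp) hu⟩
    let L : H →ₗ[ℝ] (Fin m → ℝ) := LinearMap.pi fun j => (innerSL ℝ (a j)).toLinearMap
    refine FiniteDimensional.of_injective L ((injective_iff_map_eq_zero L).2 fun x hx => ?_)
    have h0 : (0 : H) ∈ {x | ∀ j, ⟪a j, x⟫ ≤ b j} := hab ▸ mem_singleton 0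
    have hx' : x ∈ {x | ∀ j, ⟪a j, x⟫ ≤ b j} := fun j => by
      have h1 : ⟪a j, x⟫ = 0 := congrFun hx j
      have h2 := h0 j
      rw [inner_zero_right] at h2
      rwa [h1]
    rw [← hab] at hx'
    exact hx'
  · intro hfd A hne hc hv hs
    by_cases hr : 1 < Module.rank ℝ H
    · rcases classify hr hne hc hv hs with h | h
      · exact poly_of_fintype (ι := Empty) _ (fun j => j.elim) (fun j => j.elim) (by simp [h])
      · obtain ⟨p, hp⟩ := hne
        rw [h.eq_singleton_of_mem hp]
        exact poly_single p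
    · push Not at hr
      obtain ⟨v, hv'⟩ := rank_le_one_iff.1 hr
      by_cases hv0 : v = 0
      · obtain ⟨p, hp⟩ := hne
        have : A.Subsingleton := fun x _ y _ => by
          obtain ⟨r, rfl⟩ := hv' x
          obtain ⟨s, rfl⟩ := hv' y
          simp [hv0]
        rw [this.eq_singleton_of_mem hp]
        exact poly_single p
      · refine poly_line (‖v‖⁻¹ • v) (by simp [norm_smul, hv0]) (fun x => ?_) hne hc hv
        obtain ⟨r, rfl⟩ := hv' x
        have hp : ‖v‖ ≠ 0 := norm_ne_zero_iff.2 hv0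
        rw [inner_smul_left, inner_smul_right, real_inner_self_eq_norm_sq, smul_smul]
        congr 1
        simp only [conj_trivial]
        field_simp

end Pool.Agent.Results.MP_c48ca6_an.Dim
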